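import Pool.Agent.Helper96.Kod.Goals

/-! Packet K5 (generic point) for MP_5ff3c6_ag. -/

open scoped Topology
open Filter

namespace Helper36.Kod

/-- Passing to a smaller open set on which each of finitely many continuous functions is
identically zero or nowhere zero. -/
theorem exists_open_dichotomy {E J F : Type*} [TopologicalSpace E] [TopologicalSpace F]
    [T1Space F] [Zero F] (h : J → E → F) (V : Set E) (hV : IsOpen V) (hVn : V.Nonempty)
    (hc : ∀ j, ContinuousOn (h j) V) (H : Finset J) :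
    ∃ V' ⊆ V, IsOpen V' ∧ V'.Nonempty ∧
      ∀ j ∈ H, (∀ x ∈ V', h j x = 0) ∨ (∀ x ∈ V', h j x ≠ 0) := by
  classical
  induction H using Finset.induction_on with
  | empty => exact ⟨V, Set.Subset.refl _, hV, hVn, fun j hj => absurd hj (Finset.notMem_empty j)⟩
  | insert j H _ ih =>
    obtain ⟨V', hsub, ho, hn, hall⟩ := ih
    by_cases hz : ∀ x ∈ V', h j x = 0
    · refine ⟨V', hsub, ho, hn, fun i hi => ?_⟩
      rcases Finset.mem_insert.1 hi with rfl | hi
      · exact Or.inl hz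
      · exact hall i hi
    · push Not at hz
      obtain ⟨x, hx, hx0⟩ := hz
      refine ⟨V' ∩ (h j) ⁻¹' {0}ᶜ, Set.inter_subset_left.trans hsub,
        ((hc j).mono hsub).isOpen_inter_preimage ho isOpen_compl_singleton, ⟨x, hx, hx0⟩,
        fun i hi => ?_⟩
      rcases Finset.mem_insert.1 hi with rfl | hi
      · exact Or.inr fun y hy => hy.2
      · rcases hall i hi with h1 | h1
        · exact Or.inl fun y hy => h1 y hy.1
        · exact Or.inr fun y hy => h1 y hy.1

theorem stmtK5 : Pool.Agent.Helper96.Kod.StmtK5 := by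
  intro E _ N ι a u U k s₀ x₀ hk hU hx₀ hcont hu hle hne
  have hδ : 0 < ‖a s₀ x₀‖ / 2 := half_pos (norm_pos_iff.2 hne)
  set δ := ‖a s₀ x₀‖ / 2 with hδdef
  set V : Set E := U ∩ (fun x => ‖a s₀ x‖) ⁻¹' Set.Ioi δ with hVdef
  have hVo : IsOpen V := (hcont s₀).norm.isOpen_inter_preimage hU isOpen_Ioi
  have hVn : V.Nonempty := ⟨x₀, hx₀, by
    show δ < ‖a s₀ x₀‖
    rw [hδdef]
    linarith [norm_pos_iff.2 hne]⟩
  have hT : {s | ¬ u s < δ ^ k}.Finite := by
    have h1 := hu.tendsto_cofinite_zero.eventually (gt_mem_nhds (pow_pos hδ k))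
    exact h1
  have hR : {ζ : ℂ | ζ ^ k = 1}.Finite := by
    refine Set.Finite.subset (Finset.finite_toSet (Polynomial.nthRoots k (1 : ℂ)).toFinset) ?_
    intro ζ hζ
    rw [Finset.mem_coe, Multiset.mem_toFinset, Polynomial.mem_nthRoots (by omega)]
    exact hζ
  obtain ⟨V', hsub, ho, ⟨x₁, hx₁⟩, hall⟩ := exists_open_dichotomy
    (fun (j : ι × ℂ) x => a j.1 x - j.2 • a s₀ x) V hVo hVn
    (fun j => ((hcont j.1).mono Set.inter_subset_left).sub
      (((hcont s₀).mono Set.inter_subset_left).const_smul j.2))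
    (hT.toFinset ×ˢ hR.toFinset)
  have hx₁V : x₁ ∈ V := hsub hx₁
  have hx₁δ : δ < ‖a s₀ x₁‖ := hx₁V.2
  refine ⟨x₁, hx₁V.1, ?_, ?_⟩
  · intro h0
    rw [h0, norm_zero] at hx₁δ
    linarith
  · intro s ζ hζ heq
    by_cases hs : u s < δ ^ k
    · exfalso
      have hζ1 : ‖ζ‖ = 1 := Complex.norm_eq_one_of_pow_eq_one hζ (by omega)
      have h1 : ‖a s x₁‖ = ‖a s₀ x₁‖ := by rw [heq, norm_smul, hζ1, one_mul]
      have h2 := hle s x₁ hx₁V.1
      rw [h1] at h2
      have h3 : δ ^ k < ‖a s₀ x₁‖ ^ k := pow_lt_pow_left₀ hx₁δ hδ.le (by omega)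
      linarith
    · have hmem : (s, ζ) ∈ hT.toFinset ×ˢ hR.toFinset := by
        rw [Finset.mem_product]
        exact ⟨hT.mem_toFinset.2 hs, hR.mem_toFinset.2 hζ⟩
      rcases hall (s, ζ) hmem with h1 | h1
      · filter_upwards [ho.mem_nhds hx₁] with x hx
        exact sub_eq_zero.1 (h1 x hx)
      · exact absurd (sub_eq_zero.2 heq) (h1 x₁ hx₁)

end Helper36.Kod
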