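import Pool.Agent.Helper96.Kod.Goals

/-! Packet K6 (linear algebra) for MP_5ff3c6_ag. -/

namespace Helper36.Kod

open Module

/-- Linearly independent functionals define a surjective map. -/
theorem surjective_of_linearIndependent {V : Type*} [AddCommGroup V] [Module ℂ V] {r : ℕ}
    (g : Fin r → V →ₗ[ℂ] ℂ) (hg : LinearIndependent ℂ g) :
    Function.Surjective fun v (j : Fin r) => g j v := by
  have h : LinearMap.range (LinearMap.pi g) = ⊤ := by
    by_contra hne
    obtain ⟨φ, hφ, hle⟩ := Submodule.exists_le_ker_of_lt_top _ (lt_top_iff_ne_top.2 hne)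
    apply hφ
    have h1 : ∑ j, φ (Pi.single j 1) • g j = 0 := by
      ext v
      have h2 : φ (LinearMap.pi g v) = 0 := hle ⟨v, rfl⟩
      rw [LinearMap.pi_apply_eq_sum_univ φ] at h2
      have h4 : ∀ x : Fin r, (fun j => if x = j then (1 : ℂ) else 0) = Pi.single x 1 := by
        intro x
        funext j
        by_cases hxj : x = j
        · subst hxj; simp
        · rw [if_neg hxj, Pi.single_eq_of_ne (Ne.symm hxj)]
      simp only [h4] at h2
      rw [LinearMap.sum_apply]
      simpa [mul_comm] using h2
    have h3 := Fintype.linearIndependent_iff.1 hg _ h1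
    refine LinearMap.pi_ext' fun j => ?_
    ext
    simpa using h3 j
  intro y
  obtain ⟨v, hv⟩ := LinearMap.range_eq_top.1 h y
  exact ⟨v, hv⟩

theorem stmtK6 : Pool.Agent.Helper96.Kod.StmtK6 := by
  intro V _ _ _ r I f A hA hker
  set S : Submodule ℂ (Dual ℂ V) := Submodule.span ℂ (Set.range f) with hS
  -- components of `A`
  set Aj : Fin r → Dual ℂ V := fun j => (LinearMap.proj j) ∘ₗ A with hAj
  have hAS : ∀ j, Aj j ∈ S := by
    intro j
    rw [← Subspace.dualCoannihilator_dualAnnihilator_eq (W := S), Submodule.mem_dualAnnihilator]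
    intro w hw
    rw [Submodule.mem_dualCoannihilator] at hw
    have h1 := hker w fun i => hw (f i) (Submodule.subset_span ⟨i, rfl⟩)
    show A w j = 0
    rw [h1]; rfl
  have hAli : LinearIndependent ℂ Aj := by
    rw [Fintype.linearIndependent_iff]
    intro c hc j
    obtain ⟨v, hv⟩ := hA (Pi.single j 1)
    have h1 := congrArg (fun φ : Dual ℂ V => φ v) hc
    simp only [LinearMap.sum_apply, LinearMap.smul_apply, LinearMap.zero_apply] at h1
    have h2 : ∀ i, Aj i v = (Pi.single j (1 : ℂ) : Fin r → ℂ) i := fun i => by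
      show A v i = _
      rw [hv]
    simp only [h2] at h1
    simpa [Pi.single_apply] using h1
  have hfin : r ≤ finrank ℂ S := by
    have h1 := finrank_span_eq_card hAli
    rw [Fintype.card_fin] at h1
    rw [← h1]
    refine Submodule.finrank_mono (Submodule.span_le.2 ?_)
    rintro _ ⟨j, rfl⟩
    exact hAS j
  obtain ⟨b, hb, hspan, hli⟩ := exists_linearIndependent ℂ (Set.range f)
  have hbfin : b.Finite := hli.setFinite
  have hcard : hbfin.toFinset.card = finrank ℂ S := by
    rw [hS, ← hspan]
    have := hbfin.fintype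
    have h1 := finrank_span_eq_card hli
    rw [Subtype.range_val] at h1
    rw [h1, Set.Finite.card_toFinset]
  have hcard2 : r ≤ hbfin.toFinset.card := hcard ▸ hfin
  obtain ⟨t, ht, htc⟩ := Finset.exists_subset_card_eq hcard2
  have e : Fin r ≃ t := (Finset.equivFinOfCardEq htc).symm
  have hmem : ∀ j : Fin r, ((e j : Dual ℂ V)) ∈ Set.range f := fun j =>
    hb (hbfin.mem_toFinset.1 (ht (e j).2))
  choose i hi using hmem
  refine ⟨i, ?_⟩
  have hli2 : LinearIndependent ℂ (fun j : Fin r => f (i j)) := by
    have h1 : (fun j : Fin r => f (i j)) =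
        (Subtype.val : b → Dual ℂ V) ∘
          (fun j : Fin r => (⟨e j, hbfin.mem_toFinset.1 (ht (e j).2)⟩ : b)) := by
      funext j
      exact hi j
    rw [h1]
    refine hli.comp _ ?_
    intro j j' hjj
    have := congrArg Subtype.val hjj
    exact e.injective (Subtype.ext this)
  exact surjective_of_linearIndependent _ hli2

end Helper36.Kod
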